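import Mathlib
import Pool.Agent.Q34.CL.Desc

set_option autoImplicit false

/-! # Sums of few radicals times vectors over a field: the Galois step -/

namespace Pool.Agent.Q34.RD

open Finset Pool.Agent.H533R3.SL Pool.Agent.Q34.CL

variable {n r : ℕ}

/-- An automorphism fixing the roots of unity acts on the quotients of the coefficients of a point off
`G = 0` through roots of unity of bounded order. -/
theorem gal_step {k K Ω : Type} [Field k] [Field K] [Field Ω] [Algebra k K] [Algebra K Ω]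
    [Algebra k Ω] [IsScalarTower k K Ω]
    (FF : Set (MvPolynomial (Fin (n + 1)) k)) (d : ℕ)
    (hFF : ∀ F ∈ FF, ∃ e, e ≤ d ∧ F.IsHomogeneous e)
    (G : MvPolynomial (Fin (n + 1)) k)
    (hG : ∀ (c : Fin r → Fin (n + 1) → Ω) (l : Fin r → ℕ),
        (∀ F ∈ FF, MvPolynomial.aeval (cur c l) F = 0) →
        (∃ i i', cur c l i * Polynomial.C (∑ j, c j i') ≠
          cur c l i' * Polynomial.C (∑ j, c j i)) →
        MvPolynomial.aeval (fun i => ∑ j, c j i) G = 0)
    (N : ℕ) (hN : 0 < N) (ζ : Ω) (hζ : IsPrimitiveRoot ζ N)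
    (J : Finset (Fin r)) (V : Fin r → Fin (n + 1) → K) (u : Fin r → Ω)
    (hu0 : ∀ j ∈ J, u j ≠ 0) (huN : ∀ j ∈ J, ∃ c : K, algebraMap K Ω c = u j ^ N)
    (hx0 : comb J u V ≠ 0)
    (hxF : ∀ F ∈ FF, MvPolynomial.aeval (comb J u V) F = 0)
    (hxG : MvPolynomial.aeval (comb J u V) G ≠ 0)
    (hmin : ∀ J' ⊂ J, ∀ c : Ω, c ≠ 0 → ∃ i, comb J' u V i ≠ c * comb J u V i)
    (j1 : Fin r) (hj1 : j1 ∈ J) (σ : Ω ≃ₐ[K] Ω) (hσ : σ ζ = ζ) :
    ∃ e, 0 < e ∧ e ≤ (2 * d + 1) ^ r ∧ ∀ j ∈ J, (σ (u j / u j1)) ^ e = (u j / u j1) ^ e := by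
  classical
  have hζ0 : ζ ≠ 0 := hζ.ne_zero hN.ne'
  let χ : Fin r → Ω := fun j => σ (u j) / u j
  have hσu0 : ∀ j ∈ J, σ (u j) ≠ 0 := by
    intro j hj h
    exact hu0 j hj ((map_eq_zero σ).1 h)
  have hχ0 : ∀ j ∈ J, χ j ≠ 0 := fun j hj => div_ne_zero (hσu0 j hj) (hu0 j hj)
  have hχu : ∀ j ∈ J, σ (u j) = χ j * u j := fun j hj => (div_mul_cancel₀ _ (hu0 j hj)).symm
  have hχN : ∀ j ∈ J, χ j ^ N = 1 := by
    intro j hj
    obtain ⟨c, hc⟩ := huN j hj
    show (σ (u j) / u j) ^ N = 1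
    rw [div_pow, ← map_pow, ← hc, AlgEquiv.commutes, div_self]
    rw [hc]
    exact pow_ne_zero _ (hu0 j hj)
  have hNe : NeZero N := ⟨hN.ne'⟩
  have hχσ : ∀ j ∈ J, σ (χ j) = χ j := by
    intro j hj
    obtain ⟨i, _, hi⟩ := hζ.eq_pow_of_pow_eq_one (hχN j hj)
    rw [← hi, map_pow, hσ]
  have hσu : ∀ i : ℕ, ∀ j ∈ J, (σ ^ i) (u j) = χ j ^ i * u j := by
    intro i
    induction i with
    | zero =>
      intro j _
      simp
    | succ i ih =>
      intro j hj
      rw [pow_succ', AlgEquiv.mul_apply, ih j hj, map_mul, map_pow, hχσ j hj, hχu j hj]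
      ring
  let h : Fin r → Ω := fun j => if j ∈ J then χ j / χ j1 else 1
  have hhJ : ∀ j ∈ J, h j = χ j / χ j1 := fun j hj => if_pos hj
  have hhN : h ^ N = 1 := by
    funext j
    show (if j ∈ J then χ j / χ j1 else 1) ^ N = 1
    split_ifs with hj
    · rw [div_pow, hχN j hj, hχN j1 hj1, div_one]
    · exact one_pow _
  set e := orderOf h with he
  have he0 : 0 < e := (isOfFinOrder_iff_pow_eq_one.2 ⟨N, hN, hhN⟩).orderOf_pos
  have heN : e ∣ N := orderOf_dvd_of_pow_eq_one hhN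
  have hhe : ∀ j, h j ^ e = 1 := fun j => congrFun (pow_orderOf_eq_one h) j
  refine ⟨e, he0, ?_, fun j hj => ?_⟩
  swap
  · have h1 : σ (u j / u j1) = h j * (u j / u j1) := by
      rw [hhJ j hj, map_div₀, hχu j hj, hχu j1 hj1, mul_div_mul_comm]
    rw [h1, mul_pow, hhe j, one_mul]
  by_contra hlt
  push Not at hlt
  obtain ⟨N', hN'⟩ := heN
  have hξ : IsPrimitiveRoot (ζ ^ N') e := hζ.pow hN (by rw [hN', mul_comm])
  obtain ⟨ξ, hξd⟩ : ∃ ξ : Ω, ξ = ζ ^ N' := ⟨_, rfl⟩
  rw [← hξd] at hξ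
  have hξ0 : ξ ≠ 0 := hξ.ne_zero he0.ne'
  have heNe : NeZero e := ⟨he0.ne'⟩
  have hα : ∀ j, ∃ i : ℕ, ξ ^ i = h j := fun j => by
    obtain ⟨i, _, hi⟩ := hξ.eq_pow_of_pow_eq_one (hhe j)
    exact ⟨i, hi⟩
  choose α hα using hα
  obtain ⟨t, ht0, htQ, c, hc⟩ := dirichlet e (2 * d + 1) he0 (by omega) (fun j => (α j : ℤ))
  have hte : t < e := lt_of_le_of_lt htQ hlt
  let s : Fin r → ℤ := fun j => t * α j - e * c j
  have hs : ∀ j, ξ ^ (s j) = h j ^ t := by
    intro j
    show ξ ^ ((t : ℤ) * α j - e * c j) = h j ^ t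
    rw [zpow_sub₀ hξ0, zpow_mul ξ (e : ℤ), zpow_natCast ξ e, hξ.pow_eq_one, one_zpow, div_one,
      mul_comm, zpow_mul, zpow_natCast, zpow_natCast, hα]
  set S : ℕ := e / (2 * d + 1) with hS
  have hsS : ∀ j, |s j| ≤ (S : ℤ) := by
    intro j
    have h1 : (s j).natAbs * (2 * d + 1) ≤ e := by
      have h0 := hc j
      have h2 : |s j| * ((2 * d + 1 : ℕ) : ℤ) ≤ e := h0
      rw [Int.abs_eq_natAbs] at h2
      exact_mod_cast h2
    have h2 : (s j).natAbs ≤ S := (Nat.le_div_iff_mul_le (by omega)).2 h1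
    rw [Int.abs_eq_natAbs]
    exact_mod_cast h2
  have hSe : S * (2 * d + 1) ≤ e := Nat.div_mul_le_self _ _
  let l : Fin r → ℕ := fun j => (s j + S).toNat
  have hl : ∀ j, (l j : ℤ) = s j + S := by
    intro j
    have := (abs_le.1 (hsS j)).1
    exact Int.toNat_of_nonneg (by linarith)
  have hl2 : ∀ j, l j ≤ 2 * S := by
    intro j
    have h1 := (abs_le.1 (hsS j)).2
    have h2 := hl j
    omega
  -- the curve
  let cc : Fin r → Fin (n + 1) → Ω := fun j i => if j ∈ J then u j * algebraMap K Ω (V j i) else 0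
  have hcur : ∀ i, cur cc l i = ∑ j ∈ J, Polynomial.C (u j * algebraMap K Ω (V j i)) *
      Polynomial.X ^ (l j) := by
    intro i
    unfold cur
    rw [← Finset.sum_filter_add_sum_filter_not Finset.univ (fun j => j ∈ J),
      Finset.filter_mem_eq_inter, Finset.univ_inter]
    have h1 : ∑ j ∈ Finset.univ.filter (fun j => j ∉ J),
        Polynomial.C (cc j i) * (Polynomial.X : Polynomial Ω) ^ (l j) = 0 := by
      refine Finset.sum_eq_zero fun j hj => ?_
      rw [Finset.mem_filter] at hj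
      simp only [cc, if_neg hj.2, Polynomial.C_0, zero_mul]
    rw [h1, add_zero]
    refine Finset.sum_congr rfl fun j hj => ?_
    simp only [cc, if_pos hj]
  have hsum : ∀ i, ∑ j, cc j i = comb J u V i := by
    intro i
    unfold comb
    rw [← Finset.sum_filter_add_sum_filter_not Finset.univ (fun j => j ∈ J),
      Finset.filter_mem_eq_inter, Finset.univ_inter]
    have h1 : ∑ j ∈ Finset.univ.filter (fun j => j ∉ J), cc j i = 0 := by
      refine Finset.sum_eq_zero fun j hj => ?_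
      rw [Finset.mem_filter] at hj
      simp only [cc, if_neg hj.2]
    rw [h1, add_zero]
    refine Finset.sum_congr rfl fun j hj => ?_
    simp only [cc, if_pos hj]
  -- values of the curve at the powers of `ξ`
  have hval : ∀ i : ℕ, ∀ a, (cur cc l a).eval (ξ ^ i) =
      (ξ ^ (i * S) * (χ j1 ^ (t * i))⁻¹) * (σ ^ (t * i)) (comb J u V a) := by
    intro i a
    rw [hcur, Polynomial.eval_finsetSum]
    unfold comb
    rw [map_sum, Finset.mul_sum]
    refine Finset.sum_congr rfl fun j hj => ?_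
    rw [Polynomial.eval_mul, Polynomial.eval_C, Polynomial.eval_pow, Polynomial.eval_X, map_mul,
      AlgEquiv.commutes, hσu _ j hj]
    have h1 : (ξ ^ i) ^ l j = ξ ^ (i * S) * (χ j ^ (t * i) * (χ j1 ^ (t * i))⁻¹) := by
      have h2 : (ξ ^ i) ^ l j = (ξ ^ (i * S)) * (ξ ^ (s j)) ^ i := by
        rw [← zpow_natCast (ξ ^ i), hl, ← zpow_natCast ξ i, ← zpow_mul, ← zpow_natCast ξ (i * S),
          ← zpow_natCast (ξ ^ (s j)), ← zpow_mul, ← zpow_add₀ hξ0]
        congr 1
        push_cast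
        ring
      rw [h2, hs, hhJ j hj, ← pow_mul, div_pow, div_eq_mul_inv]
    rw [h1]
    ring
  have hf : ∀ F ∈ FF, MvPolynomial.aeval (cur cc l) F = 0 := by
    intro F hF
    obtain ⟨e', he'd, hFe⟩ := hFF F hF
    have hdeg : (MvPolynomial.aeval (cur cc l) F).natDegree ≤ d * (2 * S) := by
      have h4 : MvPolynomial.aeval (cur cc l) F =
          MvPolynomial.aeval (cur cc l) (MvPolynomial.map (algebraMap k Ω) F) := by
        rw [MvPolynomial.aeval_map_algebraMap]
      rw [h4]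
      refine MvPolynomial.aeval_natDegree_le _ ?_ _ fun i => ?_
      · exact ((hFe.map (algebraMap k Ω)).totalDegree_le).trans he'd
      · rw [hcur]
        refine Polynomial.natDegree_sum_le_of_forall_le _ _ fun j _ => ?_
        exact (Polynomial.natDegree_C_mul_X_pow_le _ _).trans (hl2 j)
    let R : Finset Ω := (Finset.range e).image (fun i => ξ ^ i)
    have hR : R.card = e := by
      rw [Finset.card_image_of_injOn, Finset.card_range]
      intro a ha b hb hab
      rw [Finset.mem_coe, Finset.mem_range] at ha hb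
      exact hξ.pow_inj ha hb hab
    refine Polynomial.eq_zero_of_natDegree_lt_card_of_eval_eq_zero' _ R ?_ ?_
    · intro z hz
      obtain ⟨i, _, rfl⟩ := Finset.mem_image.1 hz
      have h2 := MvPolynomial.comp_aeval_apply (R := k) (cur cc l)
        ((Polynomial.aeval (ξ ^ i) : Polynomial Ω →ₐ[Ω] Ω).restrictScalars k) F
      have h3 : Polynomial.eval (ξ ^ i) (MvPolynomial.aeval (cur cc l) F) =
          MvPolynomial.aeval (fun a => Polynomial.eval (ξ ^ i) (cur cc l a)) F := h2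
      rw [h3]
      simp_rw [hval]
      rw [aeval_hom_smul F hFe]
      have h4 := MvPolynomial.comp_aeval_apply (R := k) (comb J u V)
        (((σ ^ (t * i) : Ω ≃ₐ[K] Ω) : Ω →ₐ[K] Ω).restrictScalars k) F
      have h5 : (σ ^ (t * i)) (MvPolynomial.aeval (comb J u V) F) =
          MvPolynomial.aeval (fun a => (σ ^ (t * i)) (comb J u V a)) F := h4
      rw [← h5, hxF F hF, map_zero, mul_zero]
    · rw [hR]
      refine lt_of_le_of_lt hdeg ?_
      rcases Nat.eq_zero_or_pos S with h0 | h0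
      · rw [h0]
        simpa using he0
      · nlinarith
  have hconst : ∀ i i', cur cc l i * Polynomial.C (∑ j, cc j i') =
      cur cc l i' * Polynomial.C (∑ j, cc j i) := by
    by_contra hcon
    push Not at hcon
    have h1 := hG cc l hf hcon
    simp_rw [hsum] at h1
    exact hxG h1
  obtain ⟨i0, hi0⟩ := Function.ne_iff.1 hx0
  rw [Pi.zero_apply] at hi0
  have hcur0 : cur cc l i0 ≠ 0 := by
    intro h
    have h1 := cur_eval_one cc l i0
    rw [h, Polynomial.eval_zero, hsum] at h1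
    exact hi0 h1.symm
  obtain ⟨E, hE⟩ : ∃ E, (cur cc l i0).coeff E ≠ 0 := by
    by_contra h
    push Not at h
    exact hcur0 (Polynomial.ext (by simpa using h))
  let J' : Finset (Fin r) := J.filter (fun j => l j = E)
  have hcoef : ∀ i, (cur cc l i).coeff E = comb J' u V i := by
    intro i
    rw [hcur]
    unfold comb
    rw [Polynomial.finsetSum_coeff]
    simp_rw [Polynomial.coeff_C_mul_X_pow]
    rw [← Finset.sum_filter]
    refine Finset.sum_congr ?_ fun j _ => rfl
    ext j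
    simp only [J', Finset.mem_filter]
    constructor
    · rintro ⟨h3, h4⟩
      exact ⟨h3, h4.symm⟩
    · rintro ⟨h3, h4⟩
      exact ⟨h3, h4.symm⟩
  have hy0 : comb J' u V i0 ≠ 0 := by
    rw [← hcoef]
    exact hE
  have hJJ : J' = J := by
    by_contra hne
    have hss : J' ⊂ J := lt_of_le_of_ne (Finset.filter_subset _ _) hne
    obtain ⟨i, hi⟩ := hmin J' hss (comb J' u V i0 / comb J u V i0) (div_ne_zero hy0 hi0)
    apply hi
    have h1 := congrArg (fun q => Polynomial.coeff q E) (hconst i i0)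
    simp only [Polynomial.coeff_mul_C, hcoef, hsum] at h1
    rw [div_mul_eq_mul_div, eq_div_iff hi0]
    exact h1
  have hlE : ∀ j ∈ J, l j = E := by
    intro j hj
    rw [← hJJ, Finset.mem_filter] at hj
    exact hj.2
  have hss : ∀ j ∈ J, s j = s j1 := by
    intro j hj
    have h1 := hl j
    have h2 := hl j1
    rw [hlE j hj] at h1
    rw [hlE j1 hj1] at h2
    linarith
  have hht : h ^ t = 1 := by
    funext j
    by_cases hj : j ∈ J
    · show h j ^ t = 1
      rw [← hs, hss j hj, hs, hhJ j1 hj1, div_self (hχ0 j1 hj1), one_pow]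
    · show (if j ∈ J then χ j / χ j1 else 1) ^ t = 1
      rw [if_neg hj, one_pow]
  exact pow_ne_one_of_lt_orderOf ht0.ne' hte hht

end Pool.Agent.Q34.RD
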