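import Mathlib
import Pool.Agent.Q34.CL.Desc

set_option autoImplicit false

/-! # Radicals in cyclotomic extensions -/

namespace Pool.Agent.Q34.RD

open Pool.Agent.Q34.CL

/-- An element of a cyclotomic extension with a power in the base field becomes an element of the
base field times a root of unity after raising to a power which is small in terms of the roots of
unity in the base field. -/
theorem sah {K Ω : Type} [Field K] [Field Ω] [Algebra K Ω] [IsGalois K Ω] (N : ℕ) (hN : 0 < N)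
    (ζ : Ω) (hζ : IsPrimitiveRoot ζ N) (y : Ω) (hy0 : y ≠ 0)
    (hyN : ∃ c : K, algebraMap K Ω c = y ^ N) (hfix : ∀ σ : Ω ≃ₐ[K] Ω, σ ζ = ζ → σ y = y) :
    ∃ (g : ℕ) (B : ℤ) (c z : K), 0 < g ∧ IsPrimitiveRoot (algebraMap K Ω z) g ∧
      y ^ g = ζ ^ B * algebraMap K Ω c := by
  classical
  have hζ0 : ζ ≠ 0 := hζ.ne_zero hN.ne'
  have hNe : NeZero N := ⟨hN.ne'⟩
  obtain ⟨c0, hc0⟩ := hyN
  have ha : ∀ σ : Ω ≃ₐ[K] Ω, ∃ a : ℕ, σ ζ = ζ ^ a := by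
    intro σ
    have h1 : (σ ζ) ^ N = 1 := by rw [← map_pow, hζ.pow_eq_one, map_one]
    obtain ⟨i, _, hi⟩ := hζ.eq_pow_of_pow_eq_one h1
    exact ⟨i, hi.symm⟩
  have hb : ∀ σ : Ω ≃ₐ[K] Ω, ∃ b : ℕ, σ y = ζ ^ b * y := by
    intro σ
    have h1 : (σ y / y) ^ N = 1 := by
      rw [div_pow, ← map_pow, ← hc0, AlgEquiv.commutes, hc0, div_self (pow_ne_zero _ hy0)]
    obtain ⟨i, _, hi⟩ := hζ.eq_pow_of_pow_eq_one h1
    exact ⟨i, by rw [hi, div_mul_cancel₀ _ hy0]⟩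
  choose a ha using ha
  choose b hb using hb
  have haz : ∀ (σ : Ω ≃ₐ[K] Ω) (m : ℤ), σ (ζ ^ m) = ζ ^ ((a σ : ℤ) * m) := by
    intro σ m
    rw [map_zpow₀, ha, ← zpow_natCast, ← zpow_mul]
  have hcomm : ∀ σ τ : Ω ≃ₐ[K] Ω, (N : ℤ) ∣ (b τ : ℤ) * ((a σ : ℤ) - 1) -
      (b σ : ℤ) * ((a τ : ℤ) - 1) := by
    intro σ τ
    have h1 : σ (τ ζ) = τ (σ ζ) := by
      have e1 : σ (τ ζ) = ζ ^ ((a σ : ℤ) * (a τ : ℤ)) := by
        rw [ha τ, ← zpow_natCast, haz]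
      have e2 : τ (σ ζ) = ζ ^ ((a τ : ℤ) * (a σ : ℤ)) := by
        rw [ha σ, ← zpow_natCast, haz]
      rw [e1, e2, mul_comm]
    have h2 : σ (τ y) = τ (σ y) := by
      have h3 := hfix ((τ * σ)⁻¹ * (σ * τ)) (by
        show (τ * σ)⁻¹ (σ (τ ζ)) = ζ
        rw [h1]
        show (τ * σ)⁻¹ ((τ * σ) ζ) = ζ
        rw [← AlgEquiv.mul_apply, inv_mul_cancel, AlgEquiv.one_apply])
      have h4 := congrArg (τ * σ) h3
      rw [← AlgEquiv.mul_apply, mul_inv_cancel_left] at h4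
      exact h4
    have e1 : σ (τ y) = ζ ^ ((a σ : ℤ) * b τ + b σ) * y := by
      rw [hb τ, map_mul, ← zpow_natCast ζ (b τ), haz, hb σ, ← zpow_natCast ζ (b σ), ← mul_assoc,
        ← zpow_add₀ hζ0]
    have e2 : τ (σ y) = ζ ^ ((a τ : ℤ) * b σ + b τ) * y := by
      rw [hb σ, map_mul, ← zpow_natCast ζ (b σ), haz, hb τ, ← zpow_natCast ζ (b τ), ← mul_assoc,
        ← zpow_add₀ hζ0]
    rw [e1, e2] at h2
    have h3 := mul_right_cancel₀ hy0 h2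
    have h4 : ζ ^ (((a σ : ℤ) * b τ + b σ) - ((a τ : ℤ) * b σ + b τ)) = 1 := by
      rw [zpow_sub₀ hζ0, h3, div_self (zpow_ne_zero _ hζ0)]
    have h5 := (hζ.zpow_eq_one_iff_dvd _).1 h4
    have h6 : (b τ : ℤ) * ((a σ : ℤ) - 1) - (b σ : ℤ) * ((a τ : ℤ) - 1) =
        ((a σ : ℤ) * b τ + b σ) - ((a τ : ℤ) * b σ + b τ) := by ring
    rw [h6]
    exact h5
  let S : Ideal ℤ :=
    { carrier := {m | ∃ B : ℤ, ∀ σ, (N : ℤ) ∣ (b σ : ℤ) * m - ((a σ : ℤ) - 1) * B}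
      add_mem' := by
        rintro m m' ⟨B, hB⟩ ⟨B', hB'⟩
        refine ⟨B + B', fun σ => ?_⟩
        have := dvd_add (hB σ) (hB' σ)
        have e : (b σ : ℤ) * (m + m') - ((a σ : ℤ) - 1) * (B + B') =
          ((b σ : ℤ) * m - ((a σ : ℤ) - 1) * B) + ((b σ : ℤ) * m' - ((a σ : ℤ) - 1) * B') := by
          ring
        rw [e]
        exact this
      zero_mem' := ⟨0, fun σ => by simp⟩
      smul_mem' := by
        rintro c m ⟨B, hB⟩
        refine ⟨c * B, fun σ => ?_⟩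
        have e : (b σ : ℤ) * (c • m) - ((a σ : ℤ) - 1) * (c * B) =
          c * ((b σ : ℤ) * m - ((a σ : ℤ) - 1) * B) := by
          rw [smul_eq_mul]
          ring
        rw [e]
        exact Dvd.dvd.mul_left (hB σ) c }
  let J0 : Ideal ℤ := Ideal.span (insert (N : ℤ) (Set.range fun σ => (a σ : ℤ) - 1))
  have hJS : J0 ≤ S := by
    rw [Ideal.span_le]
    rintro m (rfl | ⟨τ, rfl⟩)
    · exact ⟨0, fun σ => by simp⟩
    · refine ⟨b τ, fun σ => ?_⟩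
      have h1 := hcomm τ σ
      have e : (b σ : ℤ) * ((a τ : ℤ) - 1) - ((a σ : ℤ) - 1) * b τ =
        (b σ : ℤ) * ((a τ : ℤ) - 1) - (b τ : ℤ) * ((a σ : ℤ) - 1) := by ring
      show (N : ℤ) ∣ (b σ : ℤ) * ((a τ : ℤ) - 1) - ((a σ : ℤ) - 1) * b τ
      rw [e]
      exact h1
  obtain ⟨g', hg'⟩ := (IsPrincipalIdealRing.principal J0).principal
  have hgen : J0 = Ideal.span {g'} := hg'
  have hNJ : (N : ℤ) ∈ J0 := Ideal.subset_span (Set.mem_insert _ _)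
  have hg'N : g' ∣ (N : ℤ) := by
    rw [hgen, Ideal.mem_span_singleton] at hNJ
    exact hNJ
  have hg'0 : g' ≠ 0 := by
    rintro rfl
    rw [zero_dvd_iff] at hg'N
    exact hN.ne' (by exact_mod_cast hg'N)
  set g : ℕ := g'.natAbs with hg
  have hg0 : 0 < g := Int.natAbs_pos.2 hg'0
  have hgN : g ∣ N := by
    rw [hg]
    exact Int.natAbs_dvd_natAbs.2 hg'N
  have hgmem : (g : ℤ) ∈ J0 := by
    rw [hgen, Ideal.mem_span_singleton, hg]
    exact Int.dvd_natAbs.2 dvd_rfl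
  obtain ⟨B, hB⟩ := hJS hgmem
  have hga : ∀ σ, (g : ℤ) ∣ (a σ : ℤ) - 1 := by
    intro σ
    have h1 : ((a σ : ℤ) - 1) ∈ J0 := Ideal.subset_span (Set.mem_insert_of_mem _ ⟨σ, rfl⟩)
    rw [hgen, Ideal.mem_span_singleton] at h1
    rw [hg]
    exact Int.natAbs_dvd.2 h1
  -- the root of unity in `K`
  obtain ⟨N', hN'⟩ := hgN
  have hθ : IsPrimitiveRoot (ζ ^ N') g := hζ.pow hN (by rw [hN', mul_comm])
  have hθK : ζ ^ N' ∈ (⊥ : IntermediateField K Ω) := by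
    rw [InfiniteGalois.mem_bot_iff_fixed]
    intro σ
    obtain ⟨q, hq⟩ := hga σ
    have h1 : (a σ : ℤ) * N' = N' + N * q := by
      have h2 : (N : ℤ) = g * N' := by exact_mod_cast hN'
      rw [h2]
      linear_combination (N' : ℤ) * hq
    rw [← zpow_natCast, haz, h1, zpow_add₀ hζ0, zpow_mul, zpow_natCast ζ N, hζ.pow_eq_one,
      one_zpow, mul_one]
  rw [IntermediateField.mem_bot] at hθK
  obtain ⟨z, hz⟩ := hθK
  -- the element
  have hyK : y ^ g * ζ ^ (-B) ∈ (⊥ : IntermediateField K Ω) := by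
    rw [InfiniteGalois.mem_bot_iff_fixed]
    intro σ
    obtain ⟨q, hq⟩ := hB σ
    rw [map_mul, map_pow, hb, haz, mul_pow, ← zpow_natCast ζ (b σ), ← zpow_natCast (ζ ^ _) g,
      ← zpow_mul]
    have h1 : (b σ : ℤ) * g = ((a σ : ℤ) - 1) * B + N * q := by linear_combination hq
    have h2 : ζ ^ ((b σ : ℤ) * g) * ζ ^ ((a σ : ℤ) * -B) = ζ ^ (-B) := by
      rw [← zpow_add₀ hζ0, h1]
      have h3 : ((a σ : ℤ) - 1) * B + N * q + (a σ : ℤ) * -B = -B + N * q := by ring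
      rw [h3, zpow_add₀ hζ0, zpow_mul, zpow_natCast ζ N, hζ.pow_eq_one, one_zpow, mul_one]
    calc ζ ^ ((b σ : ℤ) * g) * y ^ g * ζ ^ ((a σ : ℤ) * -B)
        = y ^ g * (ζ ^ ((b σ : ℤ) * g) * ζ ^ ((a σ : ℤ) * -B)) := by ring
      _ = y ^ g * ζ ^ (-B) := by rw [h2]
  rw [IntermediateField.mem_bot] at hyK
  obtain ⟨c, hc⟩ := hyK
  refine ⟨g, B, c, z, hg0, by rw [hz]; exact hθ, ?_⟩
  rw [hc, zpow_neg, mul_comm (y ^ g), ← mul_assoc, mul_inv_cancel₀ (zpow_ne_zero _ hζ0), one_mul]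

/-- the number of roots of unity in a field -/
theorem roots_bound {K Ω : Type} [Field K] [Field Ω] [Algebra K Ω] (D : ℕ) (hK : CycDegree K Ω D)
    (g : ℕ) (hg : 0 < g) (z : K) (hz : IsPrimitiveRoot (algebraMap K Ω z) g) : g ≤ 9 * D ^ 2 := by
  have h1 := hK g hg _ hz
  rw [minpoly.eq_X_sub_C Ω z, Polynomial.natDegree_X_sub_C, mul_one] at h1
  have h2 := le_totient_mul_log g hg
  have h3 : ((Nat.log 2 g : ℕ) : ℝ) + 1 ≤ 3 * Real.sqrt g := by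
    have := log_bound 1 g le_rfl hg
    rw [Real.sqrt_eq_rpow]
    simpa using this
  have h4 : (g : ℝ) ≤ D * ((Nat.log 2 g : ℕ) + 1) := by
    have : g ≤ D * (Nat.log 2 g + 1) := h2.trans (Nat.mul_le_mul_right _ h1)
    exact_mod_cast this
  have hs : Real.sqrt g * Real.sqrt g = g := Real.mul_self_sqrt (Nat.cast_nonneg g)
  have hs0 : 0 < Real.sqrt g := Real.sqrt_pos.2 (by exact_mod_cast hg)
  have hD0 : (0 : ℝ) ≤ D := Nat.cast_nonneg D
  have h5 : Real.sqrt g * Real.sqrt g ≤ (3 * D) * Real.sqrt g := by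
    rw [hs]
    calc (g : ℝ) ≤ D * ((Nat.log 2 g : ℕ) + 1) := h4
      _ ≤ D * (3 * Real.sqrt g) := mul_le_mul_of_nonneg_left h3 hD0
      _ = 3 * D * Real.sqrt g := by ring
  have h6 : Real.sqrt g ≤ 3 * D := le_of_mul_le_mul_right h5 hs0
  have h7 : (g : ℝ) ≤ 9 * D ^ 2 := by
    rw [← hs]
    nlinarith
  exact_mod_cast h7

end Pool.Agent.Q34.RD
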