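import Mathlib
import Pool.Agent.Q34.RD.Main
import Pool.Agent.Q34.CL.Fin
import Pool.Agent.Y215.SK.FinB
import Pool.Agent.H58W.HtNorth

set_option autoImplicit false

/-! # Sums of few radicals: degrees, finiteness, and the converse for uniruled varieties -/

namespace Pool.Agent.Q34.RD

open Finset Pool.Agent.H533R3.SL Pool.Agent.Q34.CL Pool.Agent.Helper259.AbsHt

variable {n r : ℕ}

/-- the field generated by the coordinates -/
theorem degree_of_radical {K Ω : Type} [Field K] [Field Ω] [Algebra K Ω] (B : ℕ) (hB : 0 < B)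
    (w : Fin r → Ω) (hw : ∀ j, ∃ a : K, algebraMap K Ω a = w j ^ B)
    (V : Fin r → Fin (n + 1) → K) :
    ∃ K' : IntermediateField K Ω, FiniteDimensional K K' ∧ Module.finrank K K' ≤ B ^ r ∧
      ∀ i, lin w V i ∈ K' := by
  obtain ⟨K', h1, h2, h3⟩ := radical_field B hB w hw Finset.univ
  rw [Finset.card_univ, Fintype.card_fin] at h2
  refine ⟨K', h1, h2, fun i => ?_⟩
  exact sum_mem fun j _ => mul_mem (h3 j (Finset.mem_univ j)) (K'.algebraMap_mem _)

/-- fields in which the numbers algebraic over `ℚ` form a field of degree at most `D` -/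
theorem cycDegree_closure (K L : Type) [Field K] [CharZero K] [Field L] [Algebra K L] (D : ℕ)
    [FiniteDimensional ℚ (algebraicClosure ℚ K)]
    (hD : Module.finrank ℚ (algebraicClosure ℚ K) ≤ D) : CycDegree K L D := by
  intro m hm ω hω
  have hωK : IsIntegral K ω := ⟨Polynomial.X ^ m - 1,
    Polynomial.monic_X_pow_sub_C 1 hm.ne', by simp [hω.pow_eq_one]⟩
  have hN : NumberField (algebraicClosure ℚ K) :=
    { to_charZero := inferInstance, to_finiteDimensional := inferInstance }
  have hdvd : minpoly K ω ∣ ((Polynomial.X ^ m - 1 : Polynomial ℚ)).map (algebraMap ℚ K) := by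
    apply minpoly.dvd
    simp [hω.pow_eq_one]
  have hint : ∀ i, IsIntegral ℚ ((minpoly K ω).coeff i) := fun i =>
    Polynomial.isIntegral_coeff_of_dvd (Polynomial.X ^ m - 1 : Polynomial ℚ) (minpoly K ω)
      (Polynomial.monic_X_pow_sub_C 1 hm.ne') (minpoly.monic hωK) hdvd i
  have hlift : minpoly K ω ∈ Polynomial.lifts (algebraMap (algebraicClosure ℚ K) K) := by
    rw [Polynomial.lifts_iff_coeff_lifts]
    intro i
    exact ⟨⟨(minpoly K ω).coeff i, mem_algebraicClosure_iff.2 (hint i).isAlgebraic⟩, rfl⟩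
  obtain ⟨q, hq1, hq2, hq3⟩ := Polynomial.lifts_and_natDegree_eq_and_monic hlift
    (minpoly.monic hωK)
  have hq0 : Polynomial.aeval ω q = 0 := by
    have h1 : Polynomial.aeval ω (q.map (algebraMap (algebraicClosure ℚ K) K)) = 0 := by
      rw [hq1]
      exact minpoly.aeval K ω
    rwa [Polynomial.aeval_map_algebraMap] at h1
  have h2 : (minpoly (algebraicClosure ℚ K) ω).natDegree ≤ (minpoly K ω).natDegree := by
    rw [← hq2]
    exact Polynomial.natDegree_le_natDegree (minpoly.degree_le_of_ne_zero _ ω hq3.ne_zero hq0)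
  exact (cycDegree_numberField (algebraicClosure ℚ K) L D hD m hm ω hω).trans
    (Nat.mul_le_mul_left _ h2)

/-- The points of the projective space over `Ω` where all the forms in `FF` vanish and `G` does not,
with homogeneous coordinates `∑ u j V j`, a sum of `r` terms, where `V j` is a vector over `K` and
`u j` has a power in `K`. -/
def radPts (K : Type) {k Ω : Type} [Field k] [Field K] [Field Ω] [Algebra k Ω] [Algebra K Ω]
    (FF : Set (MvPolynomial (Fin (n + 1)) k)) (G : MvPolynomial (Fin (n + 1)) k) (r : ℕ) :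
    Set (Projectivization Ω (Fin (n + 1) → Ω)) :=
  {P | ∃ (u : Fin r → Ω) (V : Fin r → Fin (n + 1) → K),
    (∀ j, ∃ N : ℕ, 0 < N ∧ ∃ a : K, algebraMap K Ω a = u j ^ N) ∧
    ∃ h : lin u V ≠ 0, P = Projectivization.mk Ω (lin u V) h ∧ OnOff FF G (lin u V)}

/-- The points of `radPts` for which the `u j` have a power in the group `Γ` and the height of
`(V 1, …, V r)` is at most `B`. -/
def hullPts {k K : Type} [Field k] [Field K] [Algebra k Qbar] [Algebra K Qbar]
    (FF : Set (MvPolynomial (Fin (n + 1)) k)) (G : MvPolynomial (Fin (n + 1)) k) (r : ℕ)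
    (Γ : Subgroup Kˣ) (B : ℝ) : Set (Projectivization Qbar (Fin (n + 1) → Qbar)) :=
  {P | ∃ (u : Fin r → Qbar) (V : Fin r → Fin (n + 1) → K),
    (∀ j, ∃ m : ℕ, 0 < m ∧ ∃ γ ∈ Γ, algebraMap K Qbar (γ : K) = u j ^ m) ∧
    absLogHeight (fun p : Fin r × Fin (n + 1) => algebraMap K Qbar (V p.1 p.2)) ≤ B ∧
    ∃ h : lin u V ≠ 0, P = Projectivization.mk Qbar (lin u V) h ∧ OnOff FF G (lin u V)}

/-- Every point `∑ u j V j` on `FF` and off `G = 0`, over an algebraic closure `Ω` of any field `K ⊇ k`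
over which roots of unity of order `m` have degree at least `φ(m) / D`, where the `V j` are any vectors
over `K` and the `u j` have a power in `K`, is also given by some `∑ w j V j` with all `w j ^ B` in `K`,
for one `B ≤ radBound r d D`, and it is defined over an extension of `K` of degree at most
`radBound r d D ^ r`. -/
def BoundedRadicals {k : Type} [Field k] (FF : Set (MvPolynomial (Fin (n + 1)) k))
    (G : MvPolynomial (Fin (n + 1)) k) (r d : ℕ) : Prop :=
  ∀ (K Ω : Type) [Field K] [Field Ω] [Algebra k K] [Algebra K Ω] [Algebra k Ω]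
    [IsScalarTower k K Ω] [IsAlgClosed Ω] [Algebra.IsAlgebraic K Ω] (D : ℕ),
    CycDegree K Ω D → ∀ (V : Fin r → Fin (n + 1) → K) (u : Fin r → Ω),
    (∀ j, ∃ N : ℕ, 0 < N ∧ ∃ a : K, algebraMap K Ω a = u j ^ N) → OnOff FF G (lin u V) →
    (∃ B, 0 < B ∧ B ≤ radBound r d D ∧ ∃ (w : Fin r → Ω) (c : Ω),
      (∀ j, ∃ a : K, algebraMap K Ω a = w j ^ B) ∧ c ≠ 0 ∧ ∀ i, lin w V i = c * lin u V i) ∧
    ∃ K' : IntermediateField K Ω, FiniteDimensional K K' ∧
      Module.finrank K K' ≤ radBound r d D ^ r ∧ ∃ a : Ω, a ≠ 0 ∧ ∀ i, a * lin u V i ∈ K'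

/-- For every number field `K ⊇ k` in `Qbar`, the set `radPts` has only finitely many points of height
at most `H`, for every `H`, and the sets `hullPts` of all finitely generated groups are finite. -/
def FiniteRadicals {k : Type} [Field k] (FF : Set (MvPolynomial (Fin (n + 1)) k))
    (G : MvPolynomial (Fin (n + 1)) k) (r : ℕ) : Prop :=
  ∀ (K : Type) [Field K] [NumberField K] [Algebra k K] [Algebra K Qbar] [Algebra k Qbar]
    [IsScalarTower k K Qbar],
    (∀ H : ℝ, {Q ∈ radPts K (Ω := Qbar) FF G r | absLogHeight Q.rep ≤ H}.Finite) ∧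
    ∀ Γ : Subgroup Kˣ, Γ.FG → ∀ B : ℝ, (hullPts FF G r Γ B).Finite

/-- There are a number field `K ⊇ k` in `Qbar` and vectors `V 1, …, V r` over `K` such that there are
infinitely many points `∑ u j V j` on `FF` and off `G = 0`, of bounded height, where the `u j` are roots
of unity or zero. -/
def InfiniteCyclotomic {k : Type} [Field k] (FF : Set (MvPolynomial (Fin (n + 1)) k))
    (G : MvPolynomial (Fin (n + 1)) k) (r : ℕ) : Prop :=
  ∃ (K : Type) (_ : Field K) (_ : NumberField K) (_ : Algebra k K) (_ : Algebra K Qbar)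
    (_ : Algebra k Qbar) (_ : IsScalarTower k K Qbar) (V : Fin r → Fin (n + 1) → K) (H : ℝ),
    {Q ∈ cycPts (L := Qbar) FF G V | absLogHeight Q.rep ≤ H}.Infinite

theorem rep_height (x : Fin (n + 1) → Qbar) (h : x ≠ 0) :
    absLogHeight (Projectivization.mk Qbar x h).rep = absLogHeight x := by
  obtain ⟨a, ha⟩ := Projectivization.exists_smul_eq_mk_rep Qbar x h
  rw [← ha]
  exact absLogHeight_smul x a.ne_zero

/-- finitely many points of bounded height -/
theorem northcott_radPts {k K : Type} [Field k] [Field K] [NumberField K] [Algebra K Qbar]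
    [Algebra k Qbar] (FF : Set (MvPolynomial (Fin (n + 1)) k))
    (G : MvPolynomial (Fin (n + 1)) k) (R : ℕ)
    (h : ∀ (u : Fin r → Qbar) (V : Fin r → Fin (n + 1) → K),
      (∀ j, ∃ N : ℕ, 0 < N ∧ ∃ a : K, algebraMap K Qbar a = u j ^ N) → OnOff FF G (lin u V) →
      ∃ K' : IntermediateField K Qbar, FiniteDimensional K K' ∧ Module.finrank K K' ≤ R ∧
        ∃ a : Qbar, a ≠ 0 ∧ ∀ i, a * lin u V i ∈ K') (H : ℝ) :
    {P ∈ radPts K (Ω := Qbar) FF G r | absLogHeight P.rep ≤ H}.Finite := by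
  classical
  have hT := Pool.Agent.H58W.northcott (Module.finrank ℚ K * R) H
  set T := {α : Qbar | (minpoly ℚ α).natDegree ≤ Module.finrank ℚ K * R ∧
    absLogHeight ![1, α] ≤ H} with hTd
  have hT2 : {y : Fin (n + 1) → Qbar | ∀ a, y a ∈ T}.Finite := Set.Finite.pi' fun _ => hT
  refine (hT2.biUnion (t := fun y => {p : Projectivization Qbar (Fin (n + 1) → Qbar) |
    ∃ hy : y ≠ 0, p = Projectivization.mk Qbar y hy}) fun y _ => ?_).subset ?_
  · refine Set.Subsingleton.finite ?_
    rintro p ⟨h1, rfl⟩ q ⟨h2, rfl⟩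
    rfl
  · rintro P ⟨⟨u, V, hu, hx0, rfl, hon⟩, hH⟩
    rw [rep_height] at hH
    obtain ⟨K', hfd, hrank, a, ha0, haK⟩ := h u V hu hon
    obtain ⟨i0, hi0⟩ := Function.ne_iff.1 hx0
    have hi0' : lin u V i0 ≠ 0 := hi0
    have hy0 : (fun i => lin u V i / lin u V i0) ≠ 0 := by
      intro h
      have := congrFun h i0
      simp only [Pi.zero_apply] at this
      rw [div_self hi0'] at this
      exact one_ne_zero this
    rw [Set.mem_iUnion₂]
    refine ⟨fun i => lin u V i / lin u V i0, fun i => ⟨?_, ?_⟩, hy0, ?_⟩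
    · have hmem : lin u V i / lin u V i0 ∈ K' := by
        have h1 : lin u V i / lin u V i0 = (a * lin u V i) / (a * lin u V i0) := by
          rw [mul_div_mul_left _ _ ha0]
        rw [h1]
        exact div_mem (haK i) (haK i0)
      have hfdQ : FiniteDimensional ℚ K' := FiniteDimensional.trans ℚ K K'
      have h3 : Module.finrank ℚ K * Module.finrank K K' = Module.finrank ℚ K' :=
        Module.finrank_mul_finrank _ _ _
      have h5 : minpoly ℚ (algebraMap K' Qbar ⟨_, hmem⟩) = minpoly ℚ (⟨_, hmem⟩ : K') :=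
        minpoly.algebraMap_eq (algebraMap K' Qbar).injective _
      have h6 : (minpoly ℚ (⟨_, hmem⟩ : K')).natDegree ≤ Module.finrank ℚ K' :=
        minpoly.natDegree_le _
      rw [← h5, ← h3] at h6
      exact h6.trans (Nat.mul_le_mul_left _ hrank)
    · have h1 : (![1, lin u V i / lin u V i0] : Fin 2 → Qbar) =
          ![lin u V i / lin u V i0, 1] ∘ ![1, 0] := by
        funext j
        fin_cases j <;> rfl
      rw [h1]
      refine (absLogHeight_comp_le ![1, 0] _).trans ?_
      exact (Pool.Agent.Y215.SK.h1_ratio_le (lin u V) i i0 hi0').trans hH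
    · rw [Projectivization.mk_eq_mk_iff']
      refine ⟨lin u V i0, ?_⟩
      funext i
      rw [Pi.smul_apply, smul_eq_mul, mul_div_cancel₀ _ hi0']

/-- finitely many points in the division hull of a finitely generated group -/
theorem hullPts_finite {k K : Type} [Field k] [Field K] [Algebra K Qbar]
    [Algebra k Qbar] {N : ℕ} (P : Fin N → MvPolynomial (Fin (n + 1)) k)
    (hP : ∀ i, ∃ e, (P i).IsHomogeneous e)
    (G : MvPolynomial (Fin (n + 1)) k) (hGh : ∃ e, G.IsHomogeneous e)
    (hG : ∀ (L : Type) [Field L] [Algebra k L] (c : Fin r → Fin (n + 1) → L) (l : Fin r → ℕ),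
        (∀ F ∈ Set.range P, MvPolynomial.aeval (cur c l) F = 0) →
        (∃ i i', cur c l i * Polynomial.C (∑ j, c j i') ≠
          cur c l i' * Polynomial.C (∑ j, c j i)) →
        MvPolynomial.aeval (fun i => ∑ j, c j i) G = 0)
    (hfin : ∀ H : ℝ, {Q ∈ radPts K (Ω := Qbar) (Set.range P) G r | absLogHeight Q.rep ≤ H}.Finite)
    (Γ : Subgroup Kˣ) (hΓ : Γ.FG) (B : ℝ) :
    (hullPts (Set.range P) G r Γ B).Finite := by
  classical
  have hΓ' : (Γ.map (Units.map (algebraMap K Qbar : K →* Qbar))).FG := by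
    rw [Subgroup.fg_iff_submonoid_fg] at hΓ ⊢
    exact hΓ.map _
  obtain ⟨C, hC⟩ := Pool.Agent.Y215.SK.mult_bound P hP G hGh
    (fun L _ _ c l hz hc => by
      refine hG L c l ?_ hc
      rintro _ ⟨i, rfl⟩
      exact hz i) _ hΓ'
  refine (hfin (r + B + |C| * (1 + B))).subset ?_
  rintro Q ⟨u, V, hu, hB, h0, rfl, hon⟩
  refine ⟨⟨u, V, fun j => ?_, h0, rfl, hon⟩, ?_⟩
  · obtain ⟨m, hm, γ, _, hγ⟩ := hu j
    exact ⟨m, hm, γ, hγ⟩
  · rw [rep_height]
    have hu0 : ∀ j, u j ≠ 0 := by
      intro j h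
      obtain ⟨m, hm, γ, _, hγ⟩ := hu j
      rw [h, zero_pow hm.ne'] at hγ
      exact γ.ne_zero ((map_eq_zero _).1 hγ)
    let u' : Fin r → Qbarˣ := fun j => Units.mk0 (u j) (hu0 j)
    let V' : Fin r → Fin (n + 1) → Qbar := fun j i => algebraMap K Qbar (V j i)
    have hps : Pool.Agent.Y215.SK.psum Finset.univ u' V' = lin u V := rfl
    have hdiv : ∀ j, u' j ∈ Pool.Agent.Y215.SK.DivHull
        (Γ.map (Units.map (algebraMap K Qbar : K →* Qbar))) := by
      intro j
      obtain ⟨m, hm, γ, hγΓ, hγ⟩ := hu j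
      refine ⟨m, hm, γ, hγΓ, ?_⟩
      ext
      simpa [u'] using hγ
    have hon' : Pool.Agent.Y215.SK.OnOff P G (Pool.Agent.Y215.SK.psum Finset.univ u' V') := by
      rw [hps]
      exact ⟨hon.1, fun i => hon.2.1 _ ⟨i, rfl⟩, hon.2.2⟩
    obtain ⟨J, hJ, hh⟩ := hC u' V' hdiv hon'
    obtain ⟨c, hc, hc2⟩ := Pool.Agent.Y215.SK.good_prop J u' V' hJ hon'.1
    have hVB : Pool.Agent.Y215.SK.hV V' ≤ B := hB
    have hV0 : 0 ≤ Pool.Agent.Y215.SK.hV V' := absLogHeight_nonneg _
    have h1 := Pool.Agent.Y215.SK.psum_height J u' V'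
    rw [← hps, ← absLogHeight_smul _ hc, ← hc2]
    have h2 : C * (1 + Pool.Agent.Y215.SK.hV V') ≤ |C| * (1 + B) :=
      mul_le_mul (le_abs_self C) (by linarith) (by linarith) (abs_nonneg C)
    linarith

/-- sums of roots of unity times fixed vectors have bounded height -/
theorem cycPts_height {k K : Type} [Field k] [Field K] [Algebra K Qbar] [Algebra k Qbar]
    (FF : Set (MvPolynomial (Fin (n + 1)) k)) (G : MvPolynomial (Fin (n + 1)) k)
    (V : Fin r → Fin (n + 1) → K) (Q : Projectivization Qbar (Fin (n + 1) → Qbar))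
    (hQ : Q ∈ cycPts (L := Qbar) FF G V) :
    absLogHeight Q.rep ≤ r + Pool.Agent.Y215.SK.hV (fun j i => algebraMap K Qbar (V j i)) := by
  classical
  obtain ⟨u, hu, h0, rfl, hon⟩ := hQ
  rw [rep_height]
  let V' : Fin r → Fin (n + 1) → Qbar := fun j i => algebraMap K Qbar (V j i)
  let J : Finset (Fin r) := Finset.univ.filter (fun j => u j ≠ 0)
  let u' : Fin r → Qbarˣ := fun j => if h : u j ≠ 0 then Units.mk0 (u j) h else 1
  have hps : Pool.Agent.Y215.SK.psum J u' V' = lin u V := by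
    funext i
    unfold Pool.Agent.Y215.SK.psum lin
    rw [← Finset.sum_filter_add_sum_filter_not Finset.univ (fun j => u j ≠ 0)]
    have h1 : ∑ j ∈ Finset.univ.filter (fun j => ¬ u j ≠ 0),
        u j * algebraMap K Qbar (V j i) = 0 := by
      refine Finset.sum_eq_zero fun j hj => ?_
      rw [Finset.mem_filter, not_not] at hj
      rw [hj.2, zero_mul]
    rw [h1, add_zero]
    refine Finset.sum_congr rfl fun j hj => ?_
    rw [Finset.mem_filter] at hj
    simp only [u', dif_pos hj.2, Units.val_mk0, V']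
  have h1 := Pool.Agent.Y215.SK.psum_height J u' V'
  rw [hps] at h1
  have h2 : absLogHeight (fun j : J => (u' j : Qbar)) ≤ 0 := by
    refine (Pool.Agent.Y215.SK.height_le_sum _).trans (le_of_eq ?_)
    refine Finset.sum_eq_zero fun j _ => ?_
    have hj : u j ≠ 0 := (Finset.mem_filter.1 j.2).2
    obtain ⟨m, hm, hm1⟩ := (hu j).resolve_left hj
    have h3 : ((u' j : Qbarˣ) : Qbar) = u j := by simp only [u', dif_pos hj, Units.val_mk0]
    rw [h3]
    have h4 := Pool.Agent.Y215.SK.h1_pow (u j) m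
    rw [hm1, Pool.Agent.Y215.SK.h1_one] at h4
    have h5 : (m : ℝ) ≠ 0 := by exact_mod_cast hm.ne'
    exact (mul_eq_zero.1 h4.symm).resolve_left h5
  linarith

/-- the converse for uniruled varieties -/
theorem converse_height {k : Type} [Field k] [NumberField k]
    (FF : Set (MvPolynomial (Fin (n + 1)) k)) (hu : Uniruled (Ideal.span FF)) :
    ∃ r : ℕ, ∀ G : MvPolynomial (Fin (n + 1)) k, (∃ e, G.IsHomogeneous e) →
      G ∉ Ideal.span FF → InfiniteCyclotomic FF G r := by
  classical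
  obtain ⟨L, iL, iA, p, hp1, hp2, hp3⟩ := hu
  set N : ℕ := Finset.univ.sup (fun i => (p i).natDegree) + 1 with hN
  have hNc : ∀ i m, N ≤ m → (p i).coeff m = 0 := by
    intro i m hm
    apply Polynomial.coeff_eq_zero_of_natDegree_lt
    have := Finset.le_sup (f := fun i => (p i).natDegree) (Finset.mem_univ i)
    omega
  refine ⟨N, ?_⟩
  intro G hG1 hG2
  obtain ⟨K, iK, iN, iAK, w, h1, h2, h3⟩ := Pool.Agent.TH409.SH.specialise k L p FF (by
      intro F hF
      exact hp1 F (Ideal.subset_span hF)) N hNc hp3 G (hp2 G hG1 hG2)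
  obtain ⟨φ⟩ : Nonempty (K →+* Qbar) := ⟨(IsAlgClosed.lift : K →ₐ[ℚ] Qbar).toRingHom⟩
  let iKQ : Algebra K Qbar := φ.toAlgebra
  let ikQ : Algebra k Qbar := (φ.comp (algebraMap k K)).toAlgebra
  have htow : IsScalarTower k K Qbar := IsScalarTower.of_algebraMap_eq fun _ => rfl
  refine ⟨K, iK, iN, iAK, iKQ, ikQ, htow, w,
    N + Pool.Agent.Y215.SK.hV (fun j i => algebraMap K Qbar (w j i)), ?_⟩
  have hinf := curve_infinite (C := Qbar) FF G N w h1 h2 h3
  refine hinf.mono fun Q hQ => ⟨hQ, cycPts_height FF G w Q hQ⟩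

end Pool.Agent.Q34.RD
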